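import Pool.Agent.H70.HomRep2

set_option autoImplicit false

namespace Pool.Agent.Results.MP_f6eb76_al.Embedding

open Pool.Agent.H70.HomRepDefs

universe u

theorem result (K G V : Type u) [CommRing K] [Group G] [AddCommGroup V] [Module K V]
    (ρ : Representation K G V) :
    ∃ (G' V' : Type u) (_ : Group G') (_ : AddCommGroup V') (_ : Module K V')
      (ρ' : Representation K G' V') (α : V →ₗ[K] V') (β : G →* G'),
      Function.Injective α ∧ Function.Injective β ∧ (∀ g v, α (ρ g v) = ρ' (β g) (α v)) ∧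
      Homogeneous ρ' := by
  obtain ⟨B, E, h⟩ := Pool.Agent.H70.HomRep.main (K := K) ⟨G, V, ρ⟩
  exact ⟨B.G, B.V, _, _, _, B.ρ, E.a, E.b, E.ha, E.hb, E.comp, h⟩

end Pool.Agent.Results.MP_f6eb76_al.Embedding
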